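import Pool.Agent.helper67.SOL.CNT

set_option autoImplicit false

/-! # The numbers of vectors of norm `8 k` in `E_8` (row sol:CE8) -/

namespace Pool.Agent.SOL

open Pool.Agent.helper54.SOG Finset

open scoped BigOperators

/-- numbers of even vectors of length two -/
def cntSe : List (List ℕ) := [
  [1, 0, 0, 0], [0, 0, 0, 0], [0, 0, 0, 0], [0, 0, 0, 0], [0, 0, 4, 0], [0, 0, 0, 0],
  [0, 0, 0, 0], [0, 0, 0, 0], [4, 0, 0, 0], [0, 0, 0, 0], [0, 0, 0, 0], [0, 0, 0, 0],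
  [0, 0, 0, 0], [0, 0, 0, 0], [0, 0, 0, 0], [0, 0, 0, 0], [4, 0, 0, 0], [0, 0, 0, 0],
  [0, 0, 0, 0], [0, 0, 0, 0], [0, 0, 8, 0], [0, 0, 0, 0], [0, 0, 0, 0], [0, 0, 0, 0],
  [0, 0, 0, 0], [0, 0, 0, 0], [0, 0, 0, 0], [0, 0, 0, 0], [0, 0, 0, 0], [0, 0, 0, 0],
  [0, 0, 0, 0], [0, 0, 0, 0], [4, 0, 0, 0], [0, 0, 0, 0], [0, 0, 0, 0], [0, 0, 0, 0],
  [0, 0, 4, 0], [0, 0, 0, 0], [0, 0, 0, 0], [0, 0, 0, 0], [8, 0, 0, 0], [0, 0, 0, 0],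
  [0, 0, 0, 0], [0, 0, 0, 0], [0, 0, 0, 0], [0, 0, 0, 0], [0, 0, 0, 0], [0, 0, 0, 0], [0, 0, 0, 0]]

/-- numbers of odd vectors of length two -/
def cntSo : List (List ℕ) := [
  [0, 0, 0, 0], [0, 0, 0, 0], [2, 0, 2, 0], [0, 0, 0, 0], [0, 0, 0, 0], [0, 0, 0, 0],
  [0, 0, 0, 0], [0, 0, 0, 0], [0, 0, 0, 0], [0, 0, 0, 0], [4, 0, 4, 0], [0, 0, 0, 0],
  [0, 0, 0, 0], [0, 0, 0, 0], [0, 0, 0, 0], [0, 0, 0, 0], [0, 0, 0, 0], [0, 0, 0, 0],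
  [2, 0, 2, 0], [0, 0, 0, 0], [0, 0, 0, 0], [0, 0, 0, 0], [0, 0, 0, 0], [0, 0, 0, 0],
  [0, 0, 0, 0], [0, 0, 0, 0], [4, 0, 4, 0], [0, 0, 0, 0], [0, 0, 0, 0], [0, 0, 0, 0],
  [0, 0, 0, 0], [0, 0, 0, 0], [0, 0, 0, 0], [0, 0, 0, 0], [4, 0, 4, 0], [0, 0, 0, 0],
  [0, 0, 0, 0], [0, 0, 0, 0], [0, 0, 0, 0], [0, 0, 0, 0], [0, 0, 0, 0], [0, 0, 0, 0],
  [0, 0, 0, 0], [0, 0, 0, 0], [0, 0, 0, 0], [0, 0, 0, 0], [0, 0, 0, 0], [0, 0, 0, 0], [0, 0, 0, 0]]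

/-- numbers of even vectors of length four -/
def cntTe : List (List ℕ) := [
  [1, 0, 0, 0], [0, 0, 0, 0], [0, 0, 0, 0], [0, 0, 0, 0], [0, 0, 8, 0], [0, 0, 0, 0],
  [0, 0, 0, 0], [0, 0, 0, 0], [24, 0, 0, 0], [0, 0, 0, 0], [0, 0, 0, 0], [0, 0, 0, 0],
  [0, 0, 32, 0], [0, 0, 0, 0], [0, 0, 0, 0], [0, 0, 0, 0], [24, 0, 0, 0], [0, 0, 0, 0],
  [0, 0, 0, 0], [0, 0, 0, 0], [0, 0, 48, 0], [0, 0, 0, 0], [0, 0, 0, 0], [0, 0, 0, 0],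
  [96, 0, 0, 0], [0, 0, 0, 0], [0, 0, 0, 0], [0, 0, 0, 0], [0, 0, 64, 0], [0, 0, 0, 0],
  [0, 0, 0, 0], [0, 0, 0, 0], [24, 0, 0, 0], [0, 0, 0, 0], [0, 0, 0, 0], [0, 0, 0, 0],
  [0, 0, 104, 0], [0, 0, 0, 0], [0, 0, 0, 0], [0, 0, 0, 0], [144, 0, 0, 0], [0, 0, 0, 0],
  [0, 0, 0, 0], [0, 0, 0, 0], [0, 0, 96, 0], [0, 0, 0, 0], [0, 0, 0, 0], [0, 0, 0, 0],
  [96, 0, 0, 0]]

/-- numbers of odd vectors of length four -/
def cntTo : List (List ℕ) := [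
  [0, 0, 0, 0], [0, 0, 0, 0], [0, 0, 0, 0], [0, 0, 0, 0], [8, 0, 8, 0], [0, 0, 0, 0],
  [0, 0, 0, 0], [0, 0, 0, 0], [0, 0, 0, 0], [0, 0, 0, 0], [0, 0, 0, 0], [0, 0, 0, 0],
  [32, 0, 32, 0], [0, 0, 0, 0], [0, 0, 0, 0], [0, 0, 0, 0], [0, 0, 0, 0], [0, 0, 0, 0],
  [0, 0, 0, 0], [0, 0, 0, 0], [48, 0, 48, 0], [0, 0, 0, 0], [0, 0, 0, 0], [0, 0, 0, 0],
  [0, 0, 0, 0], [0, 0, 0, 0], [0, 0, 0, 0], [0, 0, 0, 0], [64, 0, 64, 0], [0, 0, 0, 0],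
  [0, 0, 0, 0], [0, 0, 0, 0], [0, 0, 0, 0], [0, 0, 0, 0], [0, 0, 0, 0], [0, 0, 0, 0],
  [104, 0, 104, 0], [0, 0, 0, 0], [0, 0, 0, 0], [0, 0, 0, 0], [0, 0, 0, 0], [0, 0, 0, 0],
  [0, 0, 0, 0], [0, 0, 0, 0], [96, 0, 96, 0], [0, 0, 0, 0], [0, 0, 0, 0], [0, 0, 0, 0],
  [0, 0, 0, 0]]

/-- table lookup -/
def cntL (t : List (List ℕ)) (m c : ℕ) : ℕ := (t.getD m []).getD c 0

set_option maxRecDepth 100000 in
lemma cnt_Se : ∀ m < 49, ∀ c < 4, cntG cntE cntD 2 m c = cntL cntSe m c := by decide +kernel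

set_option maxRecDepth 100000 in
lemma cnt_So : ∀ m < 49, ∀ c < 4, cntG cntO cntD 2 m c = cntL cntSo m c := by decide +kernel

set_option maxRecDepth 100000 in
lemma cnt_Te' : ∀ m < 49, ∀ c < 4, cntG cntE (cntL cntSe) 2 m c = cntL cntTe m c := by
  decide +kernel

set_option maxRecDepth 100000 in
lemma cnt_To' : ∀ m < 49, ∀ c < 4, cntG cntO (cntL cntSo) 2 m c = cntL cntTo m c := by
  decide +kernel

lemma cnt_Te : ∀ m < 49, ∀ c < 4, cntG cntE cntD 4 m c = cntL cntTe m c := by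
  intro m hm c hc
  have h1 : cntG cntE cntD (2 + 2) m c = cntG cntE (cntG cntE cntD 2) 2 m c :=
    cntG_add cntE cntD 2 2 m c
  have h2 : cntG cntE (cntG cntE cntD 2) 2 m c = cntG cntE (cntL cntSe) 2 m c :=
    cntG_congr cntE (cntG cntE cntD 2) (cntL cntSe) 49 cnt_Se 2 m hm c hc
  exact h1.trans (h2.trans (cnt_Te' m hm c hc))

lemma cnt_To : ∀ m < 49, ∀ c < 4, cntG cntO cntD 4 m c = cntL cntTo m c := by
  intro m hm c hc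
  have h1 : cntG cntO cntD (2 + 2) m c = cntG cntO (cntG cntO cntD 2) 2 m c :=
    cntG_add cntO cntD 2 2 m c
  have h2 : cntG cntO (cntG cntO cntD 2) 2 m c = cntG cntO (cntL cntSo) 2 m c :=
    cntG_congr cntO (cntG cntO cntD 2) (cntL cntSo) 49 cnt_So 2 m hm c hc
  exact h1.trans (h2.trans (cnt_To' m hm c hc))

lemma cnt_e8 (m : ℕ) (hm : m < 49) : cntG cntE cntD 8 m 0 = cntG cntE (cntL cntTe) 4 m 0 := by
  have h1 : cntG cntE cntD (4 + 4) m 0 = cntG cntE (cntG cntE cntD 4) 4 m 0 :=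
    cntG_add cntE cntD 4 4 m 0
  exact h1.trans (cntG_congr cntE (cntG cntE cntD 4) (cntL cntTe) 49 cnt_Te 4 m hm 0
    (by norm_num))

lemma cnt_o8 (m : ℕ) (hm : m < 49) : cntG cntO cntD 8 m 0 = cntG cntO (cntL cntTo) 4 m 0 := by
  have h1 : cntG cntO cntD (4 + 4) m 0 = cntG cntO (cntG cntO cntD 4) 4 m 0 :=
    cntG_add cntO cntD 4 4 m 0
  exact h1.trans (cntG_congr cntO (cntG cntO cntD 4) (cntL cntTo) 49 cnt_To 4 m hm 0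
    (by norm_num))

lemma XE8_eq (k : ℕ) (hk : k ≤ 6) : XE8 k =
    ((cntF cntE 8 ((8 * k : ℕ) : ℤ) ((0 : ℕ) : ℤ) ∪ cntF cntO 8 ((8 * k : ℕ) : ℤ) ((0 : ℕ) : ℤ) :
      Finset (Fin 8 → ℤ)) : Set (Fin 8 → ℤ)) := by
  ext x
  rw [Finset.mem_coe, Finset.mem_union, mem_cntF, mem_cntF]
  have hk' : (k : ℤ) ≤ 6 := by exact_mod_cast hk
  constructor
  · rintro ⟨⟨h1, h2⟩, h3⟩
    have h3' : ∑ i, x i * x i = ((8 * k : ℕ) : ℤ) := by rw [← dp, h3]; push_cast; ring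
    have hle : ∀ i, x i * x i ≤ 48 := by
      intro i
      have : x i * x i ≤ ∑ i, x i * x i :=
        Finset.single_le_sum (f := fun i => x i * x i) (fun i _ => mul_self_nonneg _)
          (Finset.mem_univ i)
      rw [h3'] at this
      push_cast at this
      linarith
    have h4 : (∑ i, x i + ((0 : ℕ) : ℤ)) % 4 = 0 := by push_cast; rw [add_zero]; exact h2
    rcases Int.emod_two_eq_zero_or_one (x 0) with h0 | h0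
    · left
      exact ⟨fun i => mem_cntE (hle i) ((h1 i 0).trans h0), h3', h4⟩
    · right
      exact ⟨fun i => mem_cntO (hle i) ((h1 i 0).trans h0), h3', h4⟩
  · rintro (⟨h1, h2, h3⟩ | ⟨h1, h2, h3⟩)
    · refine ⟨⟨fun i j => ?_, ?_⟩, ?_⟩
      · rw [of_mem_cntE (h1 i), of_mem_cntE (h1 j)]
      · push_cast at h3; rwa [add_zero] at h3
      · rw [dp, h2]; push_cast; ring
    · refine ⟨⟨fun i j => ?_, ?_⟩, ?_⟩
      · rw [of_mem_cntO (h1 i), of_mem_cntO (h1 j)]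
      · push_cast at h3; rwa [add_zero] at h3
      · rw [dp, h2]; push_cast; ring

lemma XE8_card (k : ℕ) (hk : k ≤ 6) : (XE8 k).ncard =
    cntG cntE (cntL cntTe) 4 (8 * k) 0 + cntG cntO (cntL cntTo) 4 (8 * k) 0 := by
  rw [XE8_eq k hk, Set.ncard_coe_finset, Finset.card_union_of_disjoint, cnt_card _ (by decide),
    cnt_card _ (by decide), cnt_e8 _ (by omega), cnt_o8 _ (by omega)]
  rw [Finset.disjoint_left]
  intro x hx hy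
  rw [mem_cntF] at hx hy
  have h1 := of_mem_cntE (hx.1 0)
  have h2 := of_mem_cntO (hy.1 0)
  omega

theorem CE8 : CE8_stmt := by
  refine ⟨?_, ?_, ?_, ?_, ?_, ?_⟩ <;> rw [XE8_card _ (by norm_num)] <;> decide +kernel

end Pool.Agent.SOL
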