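import Pool.Agent.helper67.SOL.CE8

set_option autoImplicit false

/-! # The number of vectors of norm `56` in `E_8` (row sol:CE87) -/

namespace Pool.Agent.SOL

open Pool.Agent.helper54.SOG Finset

open scoped BigOperators

/-- odd entries, `|a| ≤ 7` -/
def CE87_O : List ℤ := [-7, -5, -3, -1, 1, 3, 5, 7]

/-- numbers of even vectors of length two -/
def CE87_Se : List (List ℕ) := [
  [1, 0, 0, 0], [0, 0, 0, 0], [0, 0, 0, 0], [0, 0, 0, 0], [0, 0, 4, 0], [0, 0, 0, 0],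
  [0, 0, 0, 0], [0, 0, 0, 0], [4, 0, 0, 0], [0, 0, 0, 0], [0, 0, 0, 0], [0, 0, 0, 0],
  [0, 0, 0, 0], [0, 0, 0, 0], [0, 0, 0, 0], [0, 0, 0, 0], [4, 0, 0, 0], [0, 0, 0, 0],
  [0, 0, 0, 0], [0, 0, 0, 0], [0, 0, 8, 0], [0, 0, 0, 0], [0, 0, 0, 0], [0, 0, 0, 0],
  [0, 0, 0, 0], [0, 0, 0, 0], [0, 0, 0, 0], [0, 0, 0, 0], [0, 0, 0, 0], [0, 0, 0, 0],
  [0, 0, 0, 0], [0, 0, 0, 0], [4, 0, 0, 0], [0, 0, 0, 0], [0, 0, 0, 0], [0, 0, 0, 0],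
  [0, 0, 4, 0], [0, 0, 0, 0], [0, 0, 0, 0], [0, 0, 0, 0], [8, 0, 0, 0], [0, 0, 0, 0],
  [0, 0, 0, 0], [0, 0, 0, 0], [0, 0, 0, 0], [0, 0, 0, 0], [0, 0, 0, 0], [0, 0, 0, 0],
  [0, 0, 0, 0], [0, 0, 0, 0], [0, 0, 0, 0], [0, 0, 0, 0], [0, 0, 8, 0], [0, 0, 0, 0],
  [0, 0, 0, 0], [0, 0, 0, 0], [0, 0, 0, 0]]

/-- numbers of odd vectors of length two -/
def CE87_So : List (List ℕ) := [
  [0, 0, 0, 0], [0, 0, 0, 0], [2, 0, 2, 0], [0, 0, 0, 0], [0, 0, 0, 0], [0, 0, 0, 0],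
  [0, 0, 0, 0], [0, 0, 0, 0], [0, 0, 0, 0], [0, 0, 0, 0], [4, 0, 4, 0], [0, 0, 0, 0],
  [0, 0, 0, 0], [0, 0, 0, 0], [0, 0, 0, 0], [0, 0, 0, 0], [0, 0, 0, 0], [0, 0, 0, 0],
  [2, 0, 2, 0], [0, 0, 0, 0], [0, 0, 0, 0], [0, 0, 0, 0], [0, 0, 0, 0], [0, 0, 0, 0],
  [0, 0, 0, 0], [0, 0, 0, 0], [4, 0, 4, 0], [0, 0, 0, 0], [0, 0, 0, 0], [0, 0, 0, 0],
  [0, 0, 0, 0], [0, 0, 0, 0], [0, 0, 0, 0], [0, 0, 0, 0], [4, 0, 4, 0], [0, 0, 0, 0],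
  [0, 0, 0, 0], [0, 0, 0, 0], [0, 0, 0, 0], [0, 0, 0, 0], [0, 0, 0, 0], [0, 0, 0, 0],
  [0, 0, 0, 0], [0, 0, 0, 0], [0, 0, 0, 0], [0, 0, 0, 0], [0, 0, 0, 0], [0, 0, 0, 0],
  [0, 0, 0, 0], [0, 0, 0, 0], [6, 0, 6, 0], [0, 0, 0, 0], [0, 0, 0, 0], [0, 0, 0, 0],
  [0, 0, 0, 0], [0, 0, 0, 0], [0, 0, 0, 0]]

/-- numbers of even vectors of length four -/
def CE87_Te : List (List ℕ) := [
  [1, 0, 0, 0], [0, 0, 0, 0], [0, 0, 0, 0], [0, 0, 0, 0], [0, 0, 8, 0], [0, 0, 0, 0],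
  [0, 0, 0, 0], [0, 0, 0, 0], [24, 0, 0, 0], [0, 0, 0, 0], [0, 0, 0, 0], [0, 0, 0, 0],
  [0, 0, 32, 0], [0, 0, 0, 0], [0, 0, 0, 0], [0, 0, 0, 0], [24, 0, 0, 0], [0, 0, 0, 0],
  [0, 0, 0, 0], [0, 0, 0, 0], [0, 0, 48, 0], [0, 0, 0, 0], [0, 0, 0, 0], [0, 0, 0, 0],
  [96, 0, 0, 0], [0, 0, 0, 0], [0, 0, 0, 0], [0, 0, 0, 0], [0, 0, 64, 0], [0, 0, 0, 0],
  [0, 0, 0, 0], [0, 0, 0, 0], [24, 0, 0, 0], [0, 0, 0, 0], [0, 0, 0, 0], [0, 0, 0, 0],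
  [0, 0, 104, 0], [0, 0, 0, 0], [0, 0, 0, 0], [0, 0, 0, 0], [144, 0, 0, 0], [0, 0, 0, 0],
  [0, 0, 0, 0], [0, 0, 0, 0], [0, 0, 96, 0], [0, 0, 0, 0], [0, 0, 0, 0], [0, 0, 0, 0],
  [96, 0, 0, 0], [0, 0, 0, 0], [0, 0, 0, 0], [0, 0, 0, 0], [0, 0, 112, 0], [0, 0, 0, 0],
  [0, 0, 0, 0], [0, 0, 0, 0], [192, 0, 0, 0]]

/-- numbers of odd vectors of length four -/
def CE87_To : List (List ℕ) := [
  [0, 0, 0, 0], [0, 0, 0, 0], [0, 0, 0, 0], [0, 0, 0, 0], [8, 0, 8, 0], [0, 0, 0, 0],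
  [0, 0, 0, 0], [0, 0, 0, 0], [0, 0, 0, 0], [0, 0, 0, 0], [0, 0, 0, 0], [0, 0, 0, 0],
  [32, 0, 32, 0], [0, 0, 0, 0], [0, 0, 0, 0], [0, 0, 0, 0], [0, 0, 0, 0], [0, 0, 0, 0],
  [0, 0, 0, 0], [0, 0, 0, 0], [48, 0, 48, 0], [0, 0, 0, 0], [0, 0, 0, 0], [0, 0, 0, 0],
  [0, 0, 0, 0], [0, 0, 0, 0], [0, 0, 0, 0], [0, 0, 0, 0], [64, 0, 64, 0], [0, 0, 0, 0],
  [0, 0, 0, 0], [0, 0, 0, 0], [0, 0, 0, 0], [0, 0, 0, 0], [0, 0, 0, 0], [0, 0, 0, 0],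
  [104, 0, 104, 0], [0, 0, 0, 0], [0, 0, 0, 0], [0, 0, 0, 0], [0, 0, 0, 0], [0, 0, 0, 0],
  [0, 0, 0, 0], [0, 0, 0, 0], [96, 0, 96, 0], [0, 0, 0, 0], [0, 0, 0, 0], [0, 0, 0, 0],
  [0, 0, 0, 0], [0, 0, 0, 0], [0, 0, 0, 0], [0, 0, 0, 0], [112, 0, 112, 0], [0, 0, 0, 0],
  [0, 0, 0, 0], [0, 0, 0, 0], [0, 0, 0, 0]]

lemma CE87_mem_E {a : ℤ} (h : a * a ≤ 56) (h2 : a % 2 = 0) : a ∈ cntE := by
  have h1 : a ≤ 7 := by nlinarith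
  have h3 : -7 ≤ a := by nlinarith
  simp only [cntE, List.mem_cons, List.not_mem_nil, or_false]
  omega

lemma CE87_mem_O {a : ℤ} (h : a * a ≤ 56) (h2 : a % 2 = 1) : a ∈ CE87_O := by
  have h1 : a ≤ 7 := by nlinarith
  have h3 : -7 ≤ a := by nlinarith
  simp only [CE87_O, List.mem_cons, List.not_mem_nil, or_false]
  omega

lemma CE87_of_mem_O {a : ℤ} (h : a ∈ CE87_O) : a % 2 = 1 := by
  simp only [CE87_O, List.mem_cons, List.not_mem_nil, or_false] at h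
  omega

set_option maxRecDepth 100000 in
lemma CE87_se : ∀ m < 57, ∀ c < 4, cntG cntE cntD 2 m c = cntL CE87_Se m c := by decide +kernel

set_option maxRecDepth 100000 in
lemma CE87_so : ∀ m < 57, ∀ c < 4, cntG CE87_O cntD 2 m c = cntL CE87_So m c := by decide +kernel

set_option maxRecDepth 100000 in
lemma CE87_te' : ∀ m < 57, ∀ c < 4, cntG cntE (cntL CE87_Se) 2 m c = cntL CE87_Te m c := by
  decide +kernel

set_option maxRecDepth 100000 in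
lemma CE87_to' : ∀ m < 57, ∀ c < 4, cntG CE87_O (cntL CE87_So) 2 m c = cntL CE87_To m c := by
  decide +kernel

lemma CE87_te : ∀ m < 57, ∀ c < 4, cntG cntE cntD 4 m c = cntL CE87_Te m c := by
  intro m hm c hc
  have h1 : cntG cntE cntD (2 + 2) m c = cntG cntE (cntG cntE cntD 2) 2 m c :=
    cntG_add cntE cntD 2 2 m c
  have h2 : cntG cntE (cntG cntE cntD 2) 2 m c = cntG cntE (cntL CE87_Se) 2 m c :=
    cntG_congr cntE (cntG cntE cntD 2) (cntL CE87_Se) 57 CE87_se 2 m hm c hc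
  exact h1.trans (h2.trans (CE87_te' m hm c hc))

lemma CE87_to : ∀ m < 57, ∀ c < 4, cntG CE87_O cntD 4 m c = cntL CE87_To m c := by
  intro m hm c hc
  have h1 : cntG CE87_O cntD (2 + 2) m c = cntG CE87_O (cntG CE87_O cntD 2) 2 m c :=
    cntG_add CE87_O cntD 2 2 m c
  have h2 : cntG CE87_O (cntG CE87_O cntD 2) 2 m c = cntG CE87_O (cntL CE87_So) 2 m c :=
    cntG_congr CE87_O (cntG CE87_O cntD 2) (cntL CE87_So) 57 CE87_so 2 m hm c hc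
  exact h1.trans (h2.trans (CE87_to' m hm c hc))

lemma CE87_e8 : cntG cntE cntD 8 56 0 = cntG cntE (cntL CE87_Te) 4 56 0 := by
  have h1 : cntG cntE cntD (4 + 4) 56 0 = cntG cntE (cntG cntE cntD 4) 4 56 0 :=
    cntG_add cntE cntD 4 4 56 0
  exact h1.trans (cntG_congr cntE (cntG cntE cntD 4) (cntL CE87_Te) 57 CE87_te 4 56 (by norm_num) 0
    (by norm_num))

lemma CE87_o8 : cntG CE87_O cntD 8 56 0 = cntG CE87_O (cntL CE87_To) 4 56 0 := by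
  have h1 : cntG CE87_O cntD (4 + 4) 56 0 = cntG CE87_O (cntG CE87_O cntD 4) 4 56 0 :=
    cntG_add CE87_O cntD 4 4 56 0
  exact h1.trans (cntG_congr CE87_O (cntG CE87_O cntD 4) (cntL CE87_To) 57 CE87_to 4 56 (by norm_num)
    0 (by norm_num))

lemma CE87_eq : XE8 7 =
    ((cntF cntE 8 ((56 : ℕ) : ℤ) ((0 : ℕ) : ℤ) ∪ cntF CE87_O 8 ((56 : ℕ) : ℤ) ((0 : ℕ) : ℤ) :
      Finset (Fin 8 → ℤ)) : Set (Fin 8 → ℤ)) := by
  ext x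
  rw [Finset.mem_coe, Finset.mem_union, mem_cntF, mem_cntF]
  constructor
  · rintro ⟨⟨h1, h2⟩, h3⟩
    have h3' : ∑ i, x i * x i = ((56 : ℕ) : ℤ) := by rw [← dp, h3]; norm_num
    have hle : ∀ i, x i * x i ≤ 56 := by
      intro i
      have : x i * x i ≤ ∑ i, x i * x i :=
        Finset.single_le_sum (f := fun i => x i * x i) (fun i _ => mul_self_nonneg _)
          (Finset.mem_univ i)
      rw [h3'] at this
      exact_mod_cast this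
    have h4 : (∑ i, x i + ((0 : ℕ) : ℤ)) % 4 = 0 := by push_cast; rw [add_zero]; exact h2
    rcases Int.emod_two_eq_zero_or_one (x 0) with h0 | h0
    · left
      exact ⟨fun i => CE87_mem_E (hle i) ((h1 i 0).trans h0), h3', h4⟩
    · right
      exact ⟨fun i => CE87_mem_O (hle i) ((h1 i 0).trans h0), h3', h4⟩
  · rintro (⟨h1, h2, h3⟩ | ⟨h1, h2, h3⟩)
    · refine ⟨⟨fun i j => ?_, ?_⟩, ?_⟩
      · rw [of_mem_cntE (h1 i), of_mem_cntE (h1 j)]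
      · push_cast at h3; rwa [add_zero] at h3
      · rw [dp, h2]; norm_num
    · refine ⟨⟨fun i j => ?_, ?_⟩, ?_⟩
      · rw [CE87_of_mem_O (h1 i), CE87_of_mem_O (h1 j)]
      · push_cast at h3; rwa [add_zero] at h3
      · rw [dp, h2]; norm_num

lemma CE87_vE : cntG cntE (cntL CE87_Te) 4 56 0 = 38528 := by decide +kernel

lemma CE87_vO : cntG CE87_O (cntL CE87_To) 4 56 0 = 44032 := by decide +kernel

lemma CE87_cE : (cntF cntE 8 ((56 : ℕ) : ℤ) ((0 : ℕ) : ℤ)).card = 38528 :=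
  (cnt_card cntE (by decide) 8 56 0).trans (CE87_e8.trans CE87_vE)

lemma CE87_cO : (cntF CE87_O 8 ((56 : ℕ) : ℤ) ((0 : ℕ) : ℤ)).card = 44032 :=
  (cnt_card CE87_O (by decide) 8 56 0).trans (CE87_o8.trans CE87_vO)

lemma CE87_disj : Disjoint (cntF cntE 8 ((56 : ℕ) : ℤ) ((0 : ℕ) : ℤ))
    (cntF CE87_O 8 ((56 : ℕ) : ℤ) ((0 : ℕ) : ℤ)) := by
  rw [Finset.disjoint_left]
  intro x hx hy
  have hx' := (mem_cntF.1 hx).1 0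
  have hy' := (mem_cntF.1 hy).1 0
  have h1 := of_mem_cntE hx'
  have h2 := CE87_of_mem_O hy'
  omega

theorem CE87 : (XE8 7).ncard = 82560 := by
  rw [CE87_eq, Set.ncard_coe_finset, Finset.card_union_of_disjoint CE87_disj, CE87_cE, CE87_cO]

end Pool.Agent.SOL
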