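import Pool.Agent.helper20.SOL.SpecE

set_option autoImplicit false

/-! # Counting integer vectors by recursion (rows sol:CE8, sol:CE7) -/

namespace Pool.Agent.SOL

open Pool.Agent.helper54.SOG Finset

open scoped BigOperators

/-- vectors with entries in `J`, square sum `m` and sum `≡ -c mod 4` -/
def cntF (J : List ℤ) (n : ℕ) (m c : ℤ) : Finset (Fin n → ℤ) :=
  (Fintype.piFinset fun _ : Fin n => J.toFinset).filter
    fun x => ∑ i, x i * x i = m ∧ (∑ i, x i + c) % 4 = 0

/-- the recursion -/
def cntG (J : List ℤ) (f : ℕ → ℕ → ℕ) : ℕ → ℕ → ℕ → ℕ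
  | 0, m, c => f m c
  | n + 1, m, c => (J.map fun j => if j.natAbs * j.natAbs ≤ m then
      cntG J f n (m - j.natAbs * j.natAbs) ((c + (j % 4).toNat) % 4) else 0).sum

/-- the start of the recursion -/
def cntD (m c : ℕ) : ℕ := if m = 0 ∧ c % 4 = 0 then 1 else 0

lemma mem_cntF {J : List ℤ} {n : ℕ} {m c : ℤ} {x : Fin n → ℤ} :
    x ∈ cntF J n m c ↔ (∀ i, x i ∈ J) ∧ ∑ i, x i * x i = m ∧ (∑ i, x i + c) % 4 = 0 := by
  simp [cntF, Fintype.mem_piFinset]

lemma cnt_card (J : List ℤ) (hJ : J.Nodup) (n : ℕ) :
    ∀ m c : ℕ, (cntF J n m c).card = cntG J cntD n m c := by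
  induction n with
  | zero =>
    intro m c
    show _ = cntD m c
    unfold cntD
    by_cases h : m = 0 ∧ c % 4 = 0
    · rw [if_pos h, Finset.card_eq_one]
      refine ⟨default, ?_⟩
      ext x
      rw [mem_cntF, Finset.mem_singleton]
      refine ⟨fun _ => Subsingleton.elim _ _, fun _ => ⟨fun i => i.elim0, ?_, ?_⟩⟩
      · simp [h.1]
      · simp only [Finset.univ_eq_empty, Finset.sum_empty]
        have := h.2
        omega
    · rw [if_neg h, Finset.card_eq_zero, Finset.eq_empty_iff_forall_notMem]
      intro x hx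
      rw [mem_cntF] at hx
      apply h
      obtain ⟨-, h1, h2⟩ := hx
      simp only [Finset.univ_eq_empty, Finset.sum_empty] at h1 h2
      omega
  | succ n ih =>
    intro m c
    have hmaps : ((cntF J (n + 1) m c : Finset (Fin (n + 1) → ℤ)) : Set (Fin (n + 1) → ℤ)).MapsTo
        (fun x => x 0) (J.toFinset : Set ℤ) := by
      intro x hx
      rw [Finset.mem_coe, mem_cntF] at hx
      rw [Finset.mem_coe, List.mem_toFinset]
      exact hx.1 0
    rw [Finset.card_eq_sum_card_fiberwise hmaps, List.sum_toFinset _ hJ]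
    show _ = (J.map fun j => if j.natAbs * j.natAbs ≤ m then
      cntG J cntD n (m - j.natAbs * j.natAbs) ((c + (j % 4).toNat) % 4) else 0).sum
    have key : ∀ j ∈ J, (Finset.filter (fun x : Fin (n + 1) → ℤ => x 0 = j)
        (cntF J (n + 1) m c)).card = if j.natAbs * j.natAbs ≤ m then
          cntG J cntD n (m - j.natAbs * j.natAbs) ((c + (j % 4).toNat) % 4) else 0 := by
      intro j hj
      have hjj : ((j.natAbs * j.natAbs : ℕ) : ℤ) = j * j := by
        rw [Nat.cast_mul, Int.natCast_natAbs, abs_mul_abs_self]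
      split_ifs with h
      · rw [← ih]
        refine Finset.card_nbij' (fun x i => x i.succ) (fun y => Fin.cons j y) ?_ ?_ ?_ ?_
        · intro x hx
          rw [Finset.mem_coe, Finset.mem_filter, mem_cntF] at hx
          rw [Finset.mem_coe, mem_cntF]
          obtain ⟨⟨h1, h2, h3⟩, h4⟩ := hx
          rw [Fin.sum_univ_succ, h4] at h2 h3
          refine ⟨fun i => h1 _, ?_, ?_⟩
          · rw [Nat.cast_sub h, hjj]; linarith
          · push_cast
            omega
        · intro y hy
          rw [Finset.mem_coe, mem_cntF] at hy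
          rw [Finset.mem_coe, Finset.mem_filter, mem_cntF]
          obtain ⟨h1, h2, h3⟩ := hy
          rw [Nat.cast_sub h, hjj] at h2
          refine ⟨⟨fun i => ?_, ?_, ?_⟩, rfl⟩
          · refine Fin.cases ?_ (fun i => ?_) i
            · exact hj
            · exact h1 i
          · rw [Fin.sum_univ_succ]
            simp only [Fin.cons_zero, Fin.cons_succ]
            linarith
          · rw [Fin.sum_univ_succ]
            simp only [Fin.cons_zero, Fin.cons_succ]
            push_cast at h3
            omega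
        · intro x hx
          rw [Finset.mem_coe, Finset.mem_filter] at hx
          funext i
          refine Fin.cases ?_ (fun i => ?_) i
          · exact hx.2.symm
          · rfl
        · intro y _
          rfl
      · rw [Finset.card_eq_zero, Finset.eq_empty_iff_forall_notMem]
        intro x hx
        rw [Finset.mem_filter, mem_cntF] at hx
        obtain ⟨⟨-, h2, -⟩, h4⟩ := hx
        rw [Fin.sum_univ_succ, h4] at h2
        have h5 : 0 ≤ ∑ i : Fin n, x i.succ * x i.succ :=
          Finset.sum_nonneg fun i _ => mul_self_nonneg _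
        apply h
        have h6 : ((j.natAbs * j.natAbs : ℕ) : ℤ) ≤ m := by rw [hjj]; linarith
        exact_mod_cast h6
    congr 1
    exact List.map_congr_left key

lemma cntG_add (J : List ℤ) (f : ℕ → ℕ → ℕ) (a b : ℕ) :
    ∀ m c : ℕ, cntG J f (a + b) m c = cntG J (cntG J f a) b m c := by
  induction b with
  | zero => intro m c; rfl
  | succ b ih =>
    intro m c
    show (J.map fun j => if j.natAbs * j.natAbs ≤ m then
      cntG J f (a + b) (m - j.natAbs * j.natAbs) ((c + (j % 4).toNat) % 4) else 0).sum = _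
    simp only [ih]
    rfl

lemma cntG_congr (J : List ℤ) (f g : ℕ → ℕ → ℕ) (M : ℕ)
    (h : ∀ m < M, ∀ c < 4, f m c = g m c) (n : ℕ) :
    ∀ m < M, ∀ c < 4, cntG J f n m c = cntG J g n m c := by
  induction n with
  | zero => exact h
  | succ n ih =>
    intro m hm c _
    show (J.map fun j => if j.natAbs * j.natAbs ≤ m then
      cntG J f n (m - j.natAbs * j.natAbs) ((c + (j % 4).toNat) % 4) else 0).sum =
      (J.map fun j => if j.natAbs * j.natAbs ≤ m then
      cntG J g n (m - j.natAbs * j.natAbs) ((c + (j % 4).toNat) % 4) else 0).sum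
    congr 1
    refine List.map_congr_left fun j _ => ?_
    split_ifs with h1
    · exact ih _ (by omega) _ (Nat.mod_lt _ (by norm_num))
    · rfl

/-- even entries -/
def cntE : List ℤ := [-6, -4, -2, 0, 2, 4, 6]

/-- odd entries -/
def cntO : List ℤ := [-5, -3, -1, 1, 3, 5]

lemma mem_cntE {a : ℤ} (h : a * a ≤ 48) (h2 : a % 2 = 0) : a ∈ cntE := by
  have h1 : a ≤ 6 := by nlinarith
  have h3 : -6 ≤ a := by nlinarith
  simp only [cntE, List.mem_cons, List.not_mem_nil, or_false]
  omega

lemma mem_cntO {a : ℤ} (h : a * a ≤ 48) (h2 : a % 2 = 1) : a ∈ cntO := by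
  have h1 : a ≤ 6 := by nlinarith
  have h3 : -6 ≤ a := by nlinarith
  simp only [cntO, List.mem_cons, List.not_mem_nil, or_false]
  omega

lemma of_mem_cntE {a : ℤ} (h : a ∈ cntE) : a % 2 = 0 := by
  simp only [cntE, List.mem_cons, List.not_mem_nil, or_false] at h
  omega

lemma of_mem_cntO {a : ℤ} (h : a ∈ cntO) : a % 2 = 1 := by
  simp only [cntO, List.mem_cons, List.not_mem_nil, or_false] at h
  omega

end Pool.Agent.SOL
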